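import Pool.Agent.Mpub.Defs

/-!
# The equivalence, and the sheaves on `T*ℂ^(d+1)`: public definitions (P11, helper50)
-/

set_option autoImplicit false

namespace Pool.Agent.Cpub

open Topology Filter MvPowerSeries
open Pool.Agent.Msh (FR FMod)
open Pool.Agent.Mpub (MSheaf RH Lin)

section equivalence

variable {T : Type} [TopologicalSpace T] {d : ℕ}

/-- `Φ_U` is essentially surjective: for every regular holonomic `hat E`-module `𝓜` there are a regular
holonomic `E`-module `N` and a morphism `j : N → 𝓜` which makes `𝓜` the sheaf `hat E ⊗_E N`. -/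
def EssSurj (P : MSheaf T d) : Prop :=
  ∀ 𝓜 : FMod P.hat, RH 𝓜 P.Z d →
    ∃ (N : FMod P.mic) (j : ∀ p, N.M p → 𝓜.M p), RH N P.Z d ∧ P.Form N 𝓜 j

/-- `Φ_U` is full: for two such pairs every `hat E`-linear map `𝓜 → 𝓜'` (even between two stalks) maps
`N` to `N'`. -/
def IsFull (P : MSheaf T d) : Prop :=
  ∀ (𝓜 𝓜' : FMod P.hat) (N N' : FMod P.mic) (j : ∀ p, N.M p → 𝓜.M p)
    (j' : ∀ p, N'.M p → 𝓜'.M p), RH N P.Z d → P.Form N 𝓜 j → RH N' P.Z d → P.Form N' 𝓜' j' →
    ∀ (q : T) (g : 𝓜.M q → 𝓜'.M q), Lin (fun a : P.hat.A q => a) g →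
      ∀ u : N.M q, ∃ v : N'.M q, g (j q u) = j' q v

end equivalence

/-- the coordinates on `T*ℂ^n`: `x_i` is `inl i` and `ξ_i` is `inr i` -/
abbrev Co (n : ℕ) : Type := Fin n ⊕ Fin n
/-- power series at a point of `T*ℂ^n`, in the coordinates minus their values at this point -/
abbrev Pw (n : ℕ) : Type := MvPowerSeries (Co n) ℂ

variable {n : ℕ}

/-- `∂_{x_i}` -/
noncomputable def dx (i : Fin n) (f : Pw n) : Pw n := pderiv ℂ (Sum.inl i) f
/-- `∂_{ξ_i}` -/
noncomputable def dxi (i : Fin n) (f : Pw n) : Pw n := pderiv ℂ (Sum.inr i) f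

/-- the Euler field `∑ ξ_i ∂_{ξ_i}` at a point `(x, ξ)` -/
noncomputable def euler (ξ : Fin n → ℂ) (f : Pw n) : Pw n :=
  ∑ i, (C (ξ i) + X (Sum.inr i)) * dxi i f

/-- the terms of order `k` of the Leibniz formula, `∑_{|α| = k} (1/α!) (∂_ξ^α f) (∂_x^α g)` -/
noncomputable def leibn : ℕ → Pw n → Pw n → Pw n
  | 0, f, g => f * g
  | k + 1, f, g => ((k : ℂ) + 1)⁻¹ • ∑ i, leibn k (dxi i f) (dx i g)

/-- the total symbol of the composition, `(a b)_l = ∑ leibn k a_i b_j` over `l = i + j - k` -/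
noncomputable def prod (a b : ℤ → Pw n) (l : ℤ) : Pw n :=
  ∑ᶠ (k : ℕ) (i : ℤ), leibn k (a i) (b (l + k - i))

/-- the order is at most `m` -/
def OrdLE (m : ℤ) (a : ℤ → Pw n) : Prop := ∀ k, m < k → a k = 0

/-- `|f_μ| ≤ c R^|μ|` -/
def Conv (c R : ℝ) (f : Pw n) : Prop := ∀ μ : Co n →₀ ℕ, ‖coeff μ f‖ ≤ c * R ^ μ.degree

/-- The total symbols `(a_k)`, `k ∈ ℤ`, at the point `(x, ξ)` of formal microdifferential operators:
`a_k` is homogeneous of degree `k` with respect to `ξ`, `a_k = 0` for large `k`, and all `a_k` converge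
on a common polydisc. -/
structure FormalSym (ξ : Fin n → ℂ) (a : ℤ → Pw n) : Prop where
  hom : ∀ k, euler ξ (a k) = (k : ℂ) • a k
  bdd : ∃ m : ℕ, OrdLE m a
  conv : ∃ R : ℝ, 0 < R ∧ ∀ k, ∃ c : ℝ, Conv c R (a k)

/-- the growth condition of microdifferential operators, `|a_k| ≤ c^(|k|+1) (-k)!` for `k ≤ 0` on a common
polydisc -/
def MicroSym (a : ℤ → Pw n) : Prop :=
  ∃ c : ℝ, ∀ (k : ℤ) (μ : Co n →₀ ℕ), ‖coeff μ (a k)‖ ≤ c ^ (μ.degree + k.natAbs + 1)
    * ((-k).toNat).factorial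

/-- the expansion of `f` at the point `w` (Taylor): the coefficient of `X^μ` is
`∑_l f_(μ+l) ∏_v binom(μ_v + l_v, l_v) w_v^l_v` -/
noncomputable def taylor (w : Co n → ℂ) (f : Pw n) : Pw n := fun μ =>
  ∑' l : Co n →₀ ℕ, coeff (μ + l) f * ∏ v, (((μ v + l v).choose (l v) : ℂ) * w v ^ l v)

/-- the coordinates of `q - p` -/
def dif (p q : (Fin n → ℂ) × (Fin n → ℂ)) : Co n → ℂ :=
  Sum.elim (fun i => q.1 i - p.1 i) fun i => q.2 i - p.2 i

/-- `sy` identifies the ring `S` with the ring of total symbols at `(x, ξ)` of formal microdifferential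
operators, the subset `E` with those of microdifferential operators -/
structure IsSym (ξ : Fin n → ℂ) {S : Type} [Ring S] (f : FR S) (E : Set S) (sy : S → ℤ → Pw n) :
    Prop where
  inj : ∀ a b, sy a = sy b → a = b
  range : ∀ P, (∃ a, sy a = P) ↔ FormalSym ξ P
  mic : ∀ a, a ∈ E ↔ MicroSym (sy a)
  add : ∀ a b k, sy (a + b) k = sy a k + sy b k
  mul : ∀ a b, sy (a * b) = prod (sy a) (sy b)
  fil : ∀ m a, a ∈ f.F m ↔ OrdLE m (sy a)

/-- `T` is an open subset of `T*ℂ^n` (`c` is the inclusion), and `P.mic → P.hat` are the sheaves of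
microdifferential and of formal microdifferential operators on `T`: `sy p` is the total symbol at the
point `p`, sections are given by the expansions of the same functions at all points. -/
structure IsCot {T : Type} [TopologicalSpace T] {d n : ℕ} (c : T → (Fin n → ℂ) × (Fin n → ℂ))
    (P : MSheaf T d) (sy : ∀ p, P.hat.A p → ℤ → Pw n) : Prop where
  zero : ∀ p, p ∈ P.Z ↔ (c p).2 = 0
  stalk : ∀ p, IsSym (c p).2 (P.hat.fil p) (Set.range (P.inc p)) (sy p)
  ext : ∀ p a, ∀ᶠ q in 𝓝 p, ∀ k, sy q (P.hat.ext p a q) k = taylor (dif (c p) (c q)) (sy p a k)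

end Pool.Agent.Cpub
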