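import Pool.Agent.Cpub.Defs
import Pool.Agent.Cot.Main

/-!
# The sheaves of microdifferential operators on `T*ℂ^(d+1)` exist (P11, helper50)
-/

set_option autoImplicit false

namespace Pool.Agent.Cpub

open Topology Filter MvPowerSeries
open Pool.Agent.Msh (FR FRing)
open Pool.Agent.Ep (Sym IsFormal IsMicro Op op hatE micE vs)
open Pool.Agent.Cot (Germ Ub Bd IsHat IsMic tr trs disp pr prk eul dX dXi msheaf gext_near)

private lemma p1_D {d : ℕ} (i : Option (Fin d)) (f : Sym d) :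
    Pool.Agent.Mpub.dXi i f = Pool.Agent.Ep.D i f := by
  cases i with
  | none =>
    have h : ∀ s : Finset (Fin d),
        (∑ i ∈ s, (Pool.Agent.Ep.vy i • pderiv ℂ (some (Pool.Agent.Ep.Var.y i)) :
          Derivation ℂ (Sym d) (Sym d))) f
          = ∑ i ∈ s, X (some (Pool.Agent.Ep.Var.y i)) * pderiv ℂ (some (Pool.Agent.Ep.Var.y i)) f := by
      intro s
      classical
      induction s using Finset.induction_on with
      | empty => simp
      | insert a s ha ih =>
        rw [Finset.sum_insert ha, Finset.sum_insert ha, Derivation.add_apply, ih]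
        rfl
    simp only [Pool.Agent.Mpub.dXi, Pool.Agent.Ep.D, Pool.Agent.Ep.vs, Derivation.neg_apply,
      Derivation.smul_apply, Derivation.add_apply, smul_eq_mul, h]
  | some i => rfl

private lemma p1_B {d : ℕ} (i : Option (Fin d)) (f : Sym d) :
    Pool.Agent.Mpub.dX i f = Pool.Agent.Ep.B i f := by
  cases i <;> rfl

private lemma p1_leib {d : ℕ} (n : ℕ) : ∀ f g : Sym d,
    Pool.Agent.Mpub.leib n f g = Pool.Agent.Ep.lb n f g := by
  induction n with
  | zero => intro f g; rfl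
  | succ n ih =>
    intro f g
    rw [Pool.Agent.Mpub.leib, Pool.Agent.Ep.lb, Pool.Agent.Ep.leib_succ]
    refine congrArg _ (Finset.sum_congr rfl fun i _ => ?_)
    rw [ih, p1_D, p1_B]

private lemma p1_comp {d : ℕ} (f g : Sym d) :
    Pool.Agent.Mpub.comp f g = Pool.Agent.Ep.comp f g := by
  funext m
  refine Finset.sum_congr rfl fun n _ => ?_
  rw [p1_leib]

open Classical in
/-- the standard stalks in the public formulation -/
private lemma p2_std {d : ℕ} {A : Type} [Ring A] {f : FR A} {E : Subring A}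
    (h : Pool.Agent.Msh.Std d f E) : Pool.Agent.Mpub.Std d f (E : Set A) := by
  obtain ⟨σ, τ, e, h0, h1, h2, h3, h4, h5, h6, h7, h8⟩ := h
  let g : Sym d → A := fun P => if hP : IsFormal P then ((e.symm ⟨op P, hP⟩ : f.F0) : A) else 0
  have hg : ∀ P (hP : IsFormal P), g P = ((e.symm ⟨op P, hP⟩ : f.F0) : A) := fun P hP => dif_pos hP
  have h1F : IsFormal (1 : Sym d) := (hatE d).one_mem
  have hvs : IsFormal (X none : Sym d) := Pool.Agent.Ep.isFormal_X none
  have hgs : g (X none) = σ := by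
    rw [hg _ hvs]
    have h9 : (⟨op (X none), hvs⟩ : hatE d) = e ⟨σ, h0⟩ := Subtype.ext h7.symm
    rw [h9, e.symm_apply_apply]
  refine ⟨g, τ, ?_, ?_, ?_, ?_, ?_, h2, h4, ?_, ?_⟩
  · intro P Q hP hQ
    have hadd : IsFormal (P + Q) := (hatE d).add_mem (x := op P) (y := op Q) hP hQ
    have hmul : IsFormal (Pool.Agent.Ep.comp P Q) :=
      (hatE d).mul_mem (x := op P) (y := op Q) hP hQ
    refine ⟨?_, ?_, ?_⟩
    · rw [hg P hP, hg Q hQ, hg _ hadd]
      have : (⟨op (P + Q), hadd⟩ : hatE d) = ⟨op P, hP⟩ + ⟨op Q, hQ⟩ := rfl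
      rw [this, map_add]
      rfl
    · rw [p1_comp, hg P hP, hg Q hQ, hg _ hmul]
      have : (⟨op (Pool.Agent.Ep.comp P Q), hmul⟩ : hatE d) = ⟨op P, hP⟩ * ⟨op Q, hQ⟩ := rfl
      rw [this, map_mul]
      rfl
    · intro hPQ
      rw [hg P hP, hg Q hQ] at hPQ
      have h9 := e.symm.injective (Subtype.ext hPQ)
      exact congrArg Subtype.val h9
  · rw [hg 1 h1F]
    have : (⟨op 1, h1F⟩ : hatE d) = 1 := rfl
    rw [this, map_one]
    rfl
  · intro a
    refine ⟨fun ha => ?_, ?_⟩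
    · let a' : f.F0 := ⟨a, ha⟩
      refine ⟨((e a' : hatE d) : Op d), (e a').2, (hg _ (e a').2).trans ?_⟩
      exact congrArg Subtype.val (e.symm_apply_apply a')
    · rintro ⟨P, hP, rfl⟩
      rw [hg P hP]
      exact (e.symm ⟨op P, hP⟩).2
  · intro P hP
    rw [hg P hP]
    refine (h8 (e.symm ⟨op P, hP⟩)).trans ?_
    rw [e.apply_symm_apply]
    rfl
  · rw [hgs]; exact h1
  · rw [hgs]; exact h5
  · rw [hgs]; exact h6

open Classical in
/-- a pair `E ⊆ hat E` in the public formulation -/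
noncomputable def pub {T : Type} [TopologicalSpace T] {d : ℕ} (P : Pool.Agent.Msh.MSheaf T d) :
    Pool.Agent.Mpub.MSheaf T d where
  mic := P.mic
  hat := P.hat
  inc p := (P.E p).subtype
  inj p := Subtype.val_injective
  ext_inc p := fun (a : P.E p) => by
    filter_upwards [P.ext_E p a a.2] with q hq
    change P.hat.ext p a q
      = ((if h : P.hat.ext p a q ∈ P.E q then ⟨_, h⟩ else 0 : P.E q) : P.hat.A q)
    rw [dif_pos hq]
  fil_inc p m a := Iff.rfl
  Z := P.Z
  zero p hp := by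
    obtain ⟨h1, h2, h3⟩ := P.zero p hp
    exact ⟨fun a => ⟨⟨a, by rw [h1]; trivial⟩, rfl⟩, h2, h3⟩
  std p hp := by
    have h1 := p2_std (P.std p hp)
    have h2 : Set.range (P.E p).subtype = (P.E p : Set (P.hat.A p)) := Subtype.range_val
    change Pool.Agent.Mpub.Std d (P.hat.fil p) (Set.range (P.E p).subtype)
    rw [h2]
    exact h1

private lemma p3_leibn {n : ℕ} (k : ℕ) : ∀ f g : Pw n,
    leibn k f g = Pool.Agent.Ep.leib (dXi (n := n)) dX k f g := by
  induction k with
  | zero => intro f g; rfl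
  | succ k ih =>
    intro f g
    rw [leibn, Pool.Agent.Ep.leib_succ]
    refine congrArg _ (Finset.sum_congr rfl fun i _ => ?_)
    rw [ih]
    rfl

private lemma p3_prod {n : ℕ} (a b : ℤ → Pw n) : prod a b = pr a b := by
  funext l
  refine finsum_congr fun k => finsum_congr fun i => ?_
  rw [p3_leibn]

private lemma p3_formal {n : ℕ} (ξ : Fin n → ℂ) (a : ℤ → Pw n) : FormalSym ξ a ↔ IsHat ξ a :=
  ⟨fun h => ⟨h.hom, h.bdd, h.conv⟩, fun h => ⟨h.hom, h.bdd, h.conv⟩⟩

/-- For every open subset `T` of `T*ℂ^(d+1)` the sheaves of microdifferential and of formal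
microdifferential operators on `T` form an `MSheaf`. -/
theorem exists_cot (T : Type) [TopologicalSpace T] (d : ℕ)
    (c : T → (Fin (d + 1) → ℂ) × (Fin (d + 1) → ℂ)) (hc : IsOpenEmbedding c) :
    ∃ (P : Pool.Agent.Mpub.MSheaf T d) (sy : ∀ p, P.hat.A p → ℤ → Pw (d + 1)), IsCot c P sy := by
  refine ⟨pub ((msheaf d).comap c hc.continuous), fun p (a : Germ (c p).2) => a.sy,
    fun p => Iff.rfl, fun p => ⟨?_, ?_, ?_, ?_, ?_, ?_⟩, ?_⟩
  · exact fun a b h => Germ.ext' h
  · intro f
    rw [p3_formal]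
    exact ⟨fun ⟨a, ha⟩ => ha ▸ a.2, fun h => ⟨⟨f, h⟩, rfl⟩⟩
  · intro a
    exact ⟨fun ⟨b, hb⟩ => hb ▸ b.2, fun h => ⟨⟨a, h⟩, rfl⟩⟩
  · exact fun a b k => rfl
  · intro a b
    rw [p3_prod]
    rfl
  · exact fun m a => Iff.rfl
  · intro p a
    filter_upwards [hc.continuous.continuousAt.eventually (gext_near (c p) a)] with q hq k
    exact congrFun hq k

end Pool.Agent.Cpub
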